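import Pool.Agent.Lib.MP_390819_lc.Main

open Pool.Agent.Lib.MP_390819_lc

theorem Pool.Agent.Results.MP_390819_lc.AbelianMax.result
    (G H : Type) [Group G] [TopologicalSpace G] [IsTopologicalGroup G]
    [LocallyCompactSpace G] [PolishSpace G] [Uncountable G] [MeasurableSpace G] [BorelSpace G]
    (μ : MeasureTheory.Measure G) [μ.IsHaarMeasure]
    [Group H] [TopologicalSpace H] [IsTopologicalGroup H]
    [LocallyCompactSpace H] [PolishSpace H] [Uncountable H] [MeasurableSpace H] [BorelSpace H]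
    (ν : MeasureTheory.Measure H) [ν.IsHaarMeasure]
    (K : Subgroup H) (hK : IsOpen (K : Set H)) (hc : ∀ x ∈ K, ∀ y ∈ K, x * y = y * x)
    (D B : Set H) (hD : IsCompact D) (hD0 : ν D = 0)
    (hcov : ⋃ b ∈ B, (fun x => b * x) '' D = Set.univ) :
    ∃ C A : Set G, IsCompact C ∧ μ C = 0 ∧ ⋃ a ∈ A, (fun x => a * x) '' C = Set.univ ∧
      Cardinal.mk A ≤ Cardinal.mk B := by
  have h := cov_of_cover hD hD0 hcov
  refine cover_of_cov (abelian_max G H μ ν K hK hc h) ?_
  simp [Cardinal.aleph0_mul_eq h.aleph0_lt.le]
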