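import Pool.Agent.Lib.MP_390819_lc.Main

open Pool.Agent.Lib.MP_390819_lc

theorem Pool.Agent.Results.MP_390819_lc.SymMin.result
    (G : Type) [Group G] [TopologicalSpace G] [IsTopologicalGroup G]
    [LocallyCompactSpace G] [PolishSpace G] [Uncountable G] [MeasurableSpace G] [BorelSpace G]
    (μ : MeasureTheory.Measure G) [μ.IsHaarMeasure]
    [∀ n, TopologicalSpace (Equiv.Perm (Fin n))] [∀ n, DiscreteTopology (Equiv.Perm (Fin n))]
    [MeasurableSpace (∀ n, Equiv.Perm (Fin n))] [BorelSpace (∀ n, Equiv.Perm (Fin n))]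
    (ρ : MeasureTheory.Measure (∀ n, Equiv.Perm (Fin n))) [ρ.IsHaarMeasure]
    (D B : Set G) (hD : IsCompact D) (hD0 : μ D = 0)
    (hcov : ⋃ b ∈ B, (fun x => b * x) '' D = Set.univ) :
    ∃ C A : Set (∀ n, Equiv.Perm (Fin n)), IsCompact C ∧ ρ C = 0 ∧
      ⋃ a ∈ A, (fun x => a * x) '' C = Set.univ ∧ Cardinal.mk A ≤ Cardinal.mk B :=
  cover_of_cov (cov_sym μ ρ (cov_of_cover hD hD0 hcov)) le_rfl
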